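import Mathlib

/-!
# A rational Bruck–Ryser–Chowla theorem for orbit matrices

If `M` is a rational `w × w` matrix, `w` odd, with `M Mᵀ = n I + c J`, then
`X² = n Y² + c Z²` (`w ≡ 1 mod 4`) or `Y² = n X² - c Z²` (`w ≡ 3 mod 4`) has a rational solution
with `Y ≠ 0`.
-/

namespace H862R2.DS

open Matrix Finset

section sign

variable {K V ι : Type*} [Field K] [AddCommGroup V] [Module K V] [DecidableEq ι]

theorem sign_lemma (h2 : (2 : K) ≠ 0) (u L : ι → V →ₗ[K] K) (Y : V →ₗ[K] K)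
    (hinj : ∀ x, (∀ i, u i x = 0) → Y x = 0 → x = 0) (S : Finset ι) :
    ∃ e : ι → K, (∀ i, e i = 1 ∨ e i = -1) ∧
      ∀ x, (∀ i ∈ S, L i x = e i * u i x) → (∀ i ∉ S, u i x = 0) → Y x = 0 → x = 0 := by
  induction S using Finset.induction_on with
  | empty =>
    exact ⟨fun _ => 1, fun _ => Or.inl rfl,
      fun x _ h hy => hinj x (fun i => h i (Finset.notMem_empty i)) hy⟩
  | insert j S hj ih =>
    obtain ⟨e, he, hS⟩ := ih
    by_contra hcon
    have key : ∀ c : K, (c = 1 ∨ c = -1) → ∃ x, (∀ i ∈ S, L i x = e i * u i x) ∧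
        L j x = c * u j x ∧ (∀ i ∉ insert j S, u i x = 0) ∧ Y x = 0 ∧ x ≠ 0 := by
      intro c hc
      by_contra hno
      apply hcon
      refine ⟨Function.update e j c, fun i => ?_, fun x h1 h3 h4 => ?_⟩
      · by_cases h : i = j
        · subst h; rwa [Function.update_self]
        · rw [Function.update_of_ne h]; exact he i
      · by_contra h5
        refine hno ⟨x, fun i hi => ?_, ?_, h3, h4, h5⟩
        · have := h1 i (Finset.mem_insert_of_mem hi)
          have hne : i ≠ j := fun h => hj (h ▸ hi)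
          rwa [Function.update_of_ne hne] at this
        · have := h1 j (Finset.mem_insert_self j S)
          rwa [Function.update_self] at this
    obtain ⟨x, a1, a2, a3, a4, a5⟩ := key 1 (Or.inl rfl)
    obtain ⟨y, b1, b2, b3, b4, b5⟩ := key (-1) (Or.inr rfl)
    have hx : u j x ≠ 0 := fun h0 => a5 (hS x a1 (fun i hi => by
      by_cases h : i = j
      · rw [h]; exact h0
      · exact a3 i (by simp [h, hi])) a4)
    have hy : u j y ≠ 0 := fun h0 => b5 (hS y b1 (fun i hi => by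
      by_cases h : i = j
      · rw [h]; exact h0
      · exact b3 i (by simp [h, hi])) b4)
    have hz : u j y • x - u j x • y = 0 := by
      refine hS _ (fun i hi => ?_) (fun i hi => ?_) ?_
      · rw [map_sub, map_smul, map_smul, map_sub, map_smul, map_smul, a1 i hi, b1 i hi]
        simp only [smul_eq_mul]; ring
      · by_cases h : i = j
        · rw [h, map_sub, map_smul, map_smul]
          simp only [smul_eq_mul]; ring
        · rw [map_sub, map_smul, map_smul, a3 i (by simp [h, hi]), b3 i (by simp [h, hi])]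
          simp
      · rw [map_sub, map_smul, map_smul, a4, b4]; simp
    have h := congrArg (L j) hz
    rw [map_sub, map_smul, map_smul, a2, b2, map_zero] at h
    simp only [smul_eq_mul] at h
    have h' : 2 * (u j y * u j x) = 0 := by linear_combination h
    rcases mul_eq_zero.1 h' with h | h
    · exact h2 h
    · rcases mul_eq_zero.1 h with h | h
      · exact hy h
      · exact hx h

theorem sign_solve [Fintype ι] [FiniteDimensional K V] (h2 : (2 : K) ≠ 0) (u L : ι → V →ₗ[K] K)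
    (Y : V →ₗ[K] K) (hinj : ∀ x, (∀ i, u i x = 0) → Y x = 0 → x = 0)
    (hdim : Fintype.card ι < Module.finrank K V) :
    ∃ x, Y x ≠ 0 ∧ ∀ i, (L i x) ^ 2 = (u i x) ^ 2 := by
  obtain ⟨e, he, hS⟩ := sign_lemma h2 u L Y hinj Finset.univ
  let Φ : V →ₗ[K] (ι → K) := LinearMap.pi fun i => L i - e i • u i
  have hker : LinearMap.ker Φ ≠ ⊥ := by
    apply LinearMap.ker_ne_bot_of_finrank_lt
    rw [Module.finrank_fintype_fun_eq_card]
    exact hdim
  obtain ⟨x, hx, hx0⟩ := (Submodule.ne_bot_iff _).1 hker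
  have hx' : ∀ i, L i x = e i * u i x := fun i => by
    have h := congrFun (LinearMap.mem_ker.1 hx) i
    have h3 : Φ x i = L i x - e i * u i x := by simp [Φ]
    rw [h3] at h
    exact sub_eq_zero.1 h
  refine ⟨x, fun hY => hx0 (hS x (fun i _ => hx' i) (fun i hi => absurd (Finset.mem_univ i) hi) hY),
    fun i => ?_⟩
  rw [hx' i, mul_pow]
  rcases he i with h | h <;> rw [h] <;> ring

end sign

/-- the matrix of left multiplication by a quaternion -/
def hm (a b c d : ℚ) : Fin 4 → Fin 4 → ℚ :=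
  ![![a, b, c, d], ![-b, a, -d, c], ![-c, d, a, -b], ![-d, -c, b, a]]

theorem hm_sq (a b c d : ℚ) (y : Fin 4 → ℚ) :
    ∑ k, (∑ l, hm a b c d k l * y l) ^ 2 = (a ^ 2 + b ^ 2 + c ^ 2 + d ^ 2) * ∑ l, (y l) ^ 2 := by
  simp only [Fin.sum_univ_four, hm]
  simp
  ring

variable {κ : Type*} [Fintype κ] [DecidableEq κ]

/-- the quadratic identity -/
theorem quad_id (M : Matrix κ κ ℚ) (n c : ℚ)
    (hM : M * Mᵀ = n • (1 : Matrix κ κ ℚ) + c • Matrix.of fun _ _ => (1 : ℚ)) (x : κ → ℚ) :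
    ∑ i, ((Mᵀ *ᵥ x) i) ^ 2 = n * ∑ i, (x i) ^ 2 + c * (∑ i, x i) ^ 2 := by
  have h1 : ∑ i, ((Mᵀ *ᵥ x) i) ^ 2 = x ⬝ᵥ ((M * Mᵀ) *ᵥ x) := by
    rw [← mulVec_mulVec, dotProduct_mulVec, ← mulVec_transpose, dotProduct]
    exact Finset.sum_congr rfl fun i _ => by ring
  rw [h1, hM, add_mulVec, smul_mulVec, smul_mulVec, one_mulVec, dotProduct_add, dotProduct_smul,
    dotProduct_smul, smul_eq_mul, smul_eq_mul]
  congr 1
  · congr 1
    rw [dotProduct]
    exact Finset.sum_congr rfl fun i _ => by ring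
  · congr 1
    rw [dotProduct, pow_two, Finset.sum_mul]
    refine Finset.sum_congr rfl fun i _ => ?_
    simp [mulVec, dotProduct]

theorem brc_one (M : Matrix κ κ ℚ) (n : ℕ) (c : ℚ) (hn : 0 < n)
    (hM : M * Mᵀ = (n : ℚ) • (1 : Matrix κ κ ℚ) + c • Matrix.of fun _ _ => (1 : ℚ))
    (hw : Fintype.card κ % 4 = 1) :
    ∃ X Y Z : ℚ, Y ≠ 0 ∧ X ^ 2 = n * Y ^ 2 + c * Z ^ 2 := by
  obtain ⟨q, hq⟩ : ∃ q, Fintype.card κ = q * 4 + 1 := ⟨Fintype.card κ / 4, by omega⟩
  have hcard : Fintype.card κ = Fintype.card (Option (Fin q × Fin 4)) := by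
    simp [hq]
  let σ : κ ≃ Option (Fin q × Fin 4) := Fintype.equivOfCardEq hcard
  obtain ⟨a, b, c', d, hsq⟩ := Nat.sum_four_squares n
  have hsq' : (a : ℚ) ^ 2 + (b : ℚ) ^ 2 + (c' : ℚ) ^ 2 + (d : ℚ) ^ 2 = n := by exact_mod_cast hsq
  have hn' : (0 : ℚ) < n := by exact_mod_cast hn
  let pr : κ → (κ → ℚ) →ₗ[ℚ] ℚ := fun i => LinearMap.proj i
  let u : Fin q × Fin 4 → (κ → ℚ) →ₗ[ℚ] ℚ := fun i =>
    ∑ l, hm a b c' d i.2 l • pr (σ.symm (some (i.1, l)))
  let L : Fin q × Fin 4 → (κ → ℚ) →ₗ[ℚ] ℚ := fun i =>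
    (pr (σ.symm (some i))).comp (Matrix.mulVecLin Mᵀ)
  let Y : (κ → ℚ) →ₗ[ℚ] ℚ := pr (σ.symm none)
  have hu : ∀ i x, u i x = ∑ l, hm a b c' d i.2 l * x (σ.symm (some (i.1, l))) := by
    intro i x; simp [u, pr]
  have hL : ∀ i x, L i x = (Mᵀ *ᵥ x) (σ.symm (some i)) := by
    intro i x; simp [L, pr, mulVec_transpose]
  have hY : ∀ x, Y x = x (σ.symm none) := by
    intro x; simp [Y, pr]
  have hsplit : ∀ f : κ → ℚ, ∑ i, f i = f (σ.symm none) + ∑ i : Fin q × Fin 4, f (σ.symm (some i)) := by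
    intro f
    rw [← Equiv.sum_comp σ.symm, Fintype.sum_option]
  have husq : ∀ x : κ → ℚ, ∑ i, (u i x) ^ 2 = n * ∑ i : Fin q × Fin 4, (x (σ.symm (some i))) ^ 2 := by
    intro x
    rw [Fintype.sum_prod_type, Fintype.sum_prod_type, Finset.mul_sum]
    refine Finset.sum_congr rfl fun r _ => ?_
    simp only [hu]
    rw [hm_sq a b c' d (fun l => x (σ.symm (some (r, l)))), hsq']
  have hinj : ∀ x, (∀ i, u i x = 0) → Y x = 0 → x = 0 := by
    intro x h1 h2
    have h3 := husq x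
    simp only [h1] at h3
    have h4 : ∑ i : Fin q × Fin 4, (x (σ.symm (some i))) ^ 2 = 0 := by
      have : (n : ℚ) * ∑ i : Fin q × Fin 4, (x (σ.symm (some i))) ^ 2 = 0 := by
        rw [← h3]; simp
      rcases mul_eq_zero.1 this with h | h
      · exact absurd h hn'.ne'
      · exact h
    have h5 := (Finset.sum_eq_zero_iff_of_nonneg fun i _ => sq_nonneg _).1 h4
    funext k
    obtain ⟨o, rfl⟩ := σ.symm.surjective k
    cases o with
    | none => exact (hY x).symm.trans h2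
    | some i => exact pow_eq_zero_iff (two_ne_zero) |>.1 (h5 i (Finset.mem_univ i))
  obtain ⟨x, hx, hsqx⟩ := sign_solve (by norm_num : (2 : ℚ) ≠ 0) u L Y hinj (by
    rw [Module.finrank_fintype_fun_eq_card, hcard]; simp)
  refine ⟨(Mᵀ *ᵥ x) (σ.symm none), Y x, ∑ i, x i, hx, ?_⟩
  have h1 := quad_id M n c hM x
  rw [hsplit, hsplit (fun i => (x i) ^ 2)] at h1
  have h2 : ∑ i : Fin q × Fin 4, ((Mᵀ *ᵥ x) (σ.symm (some i))) ^ 2
      = n * ∑ i : Fin q × Fin 4, (x (σ.symm (some i))) ^ 2 := by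
    rw [← husq]
    refine Finset.sum_congr rfl fun i _ => ?_
    rw [← hL, hsqx]
  rw [hY]
  linear_combination h1 - h2

theorem brc_three (M : Matrix κ κ ℚ) (n : ℕ) (c : ℚ) (hn : 0 < n)
    (hM : M * Mᵀ = (n : ℚ) • (1 : Matrix κ κ ℚ) + c • Matrix.of fun _ _ => (1 : ℚ))
    (hw : Fintype.card κ % 4 = 3) :
    ∃ X Y Z : ℚ, Y ≠ 0 ∧ Y ^ 2 = n * X ^ 2 - c * Z ^ 2 := by
  obtain ⟨q, hq⟩ : ∃ q, Fintype.card κ + 1 = q * 4 := ⟨Fintype.card κ / 4 + 1, by omega⟩
  have hcard : Fintype.card (Option κ) = Fintype.card (Fin q × Fin 4) := by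
    simp [hq]
  let σ : Option κ ≃ Fin q × Fin 4 := Fintype.equivOfCardEq hcard
  obtain ⟨a, b, c', d, hsq⟩ := Nat.sum_four_squares n
  have hsq' : (a : ℚ) ^ 2 + (b : ℚ) ^ 2 + (c' : ℚ) ^ 2 + (d : ℚ) ^ 2 = n := by exact_mod_cast hsq
  have hn' : (0 : ℚ) < n := by exact_mod_cast hn
  let pr : Option κ → (Option κ → ℚ) →ₗ[ℚ] ℚ := fun i => LinearMap.proj i
  let U : Fin q × Fin 4 → (Option κ → ℚ) →ₗ[ℚ] ℚ := fun i =>
    ∑ l, hm a b c' d i.2 l • pr (σ.symm (i.1, l))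
  let u : κ → (Option κ → ℚ) →ₗ[ℚ] ℚ := fun i => U (σ (some i))
  let R : (Option κ → ℚ) →ₗ[ℚ] (κ → ℚ) := LinearMap.pi fun i => pr (some i)
  let L : κ → (Option κ → ℚ) →ₗ[ℚ] ℚ := fun i =>
    (LinearMap.proj i : (κ → ℚ) →ₗ[ℚ] ℚ).comp ((Matrix.mulVecLin Mᵀ).comp R)
  let Y : (Option κ → ℚ) →ₗ[ℚ] ℚ := U (σ none)
  have hU : ∀ i x, U i x = ∑ l, hm a b c' d i.2 l * x (σ.symm (i.1, l)) := by
    intro i x; simp [U, pr]
  have hR : ∀ x, R x = fun i => x (some i) := by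
    intro x; funext i; simp [R, pr]
  have hL : ∀ i x, L i x = (Mᵀ *ᵥ fun j => x (some j)) i := by
    intro i x; simp [L, hR, mulVec_transpose]
  have hUsq : ∀ x : Option κ → ℚ, (Y x) ^ 2 + ∑ i, (u i x) ^ 2
      = n * ((x none) ^ 2 + ∑ i, (x (some i)) ^ 2) := by
    intro x
    have e1 : (Y x) ^ 2 + ∑ i, (u i x) ^ 2 = ∑ j, (U j x) ^ 2 := by
      rw [← Equiv.sum_comp σ, Fintype.sum_option]
    have e2 : (x none) ^ 2 + ∑ i, (x (some i)) ^ 2 = ∑ j, (x (σ.symm j)) ^ 2 := by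
      rw [Equiv.sum_comp σ.symm (fun o => (x o) ^ 2), Fintype.sum_option]
    rw [e1, e2, Fintype.sum_prod_type, Fintype.sum_prod_type, Finset.mul_sum]
    refine Finset.sum_congr rfl fun r _ => ?_
    simp only [hU]
    rw [hm_sq a b c' d (fun l => x (σ.symm (r, l))), hsq']
  have hinj : ∀ x, (∀ i, u i x = 0) → Y x = 0 → x = 0 := by
    intro x h1 h2
    have h3 := hUsq x
    simp only [h1, h2] at h3
    have h4 : (x none) ^ 2 + ∑ i, (x (some i)) ^ 2 = 0 := by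
      have : (n : ℚ) * ((x none) ^ 2 + ∑ i, (x (some i)) ^ 2) = 0 := by
        rw [← h3]; simp
      rcases mul_eq_zero.1 this with h | h
      · exact absurd h hn'.ne'
      · exact h
    have h5 : 0 ≤ ∑ i, (x (some i)) ^ 2 := Finset.sum_nonneg fun i _ => sq_nonneg _
    have h6 : (x none) ^ 2 = 0 := by nlinarith [sq_nonneg (x none)]
    have h7 : ∑ i, (x (some i)) ^ 2 = 0 := by linarith
    have h8 := (Finset.sum_eq_zero_iff_of_nonneg fun i _ => sq_nonneg _).1 h7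
    funext o
    cases o with
    | none => exact pow_eq_zero_iff (two_ne_zero) |>.1 h6
    | some i => exact pow_eq_zero_iff (two_ne_zero) |>.1 (h8 i (Finset.mem_univ i))
  obtain ⟨x, hx, hsqx⟩ := sign_solve (by norm_num : (2 : ℚ) ≠ 0) u L Y hinj (by
    rw [Module.finrank_fintype_fun_eq_card]; simp)
  refine ⟨x none, Y x, ∑ i, x (some i), hx, ?_⟩
  have h1 := quad_id M n c hM (fun i => x (some i))
  have h2 : ∑ i, ((Mᵀ *ᵥ fun j => x (some j)) i) ^ 2 = ∑ i, (u i x) ^ 2 :=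
    Finset.sum_congr rfl fun i _ => by rw [← hL, hsqx]
  have h3 := hUsq x
  linear_combination h3 - h1 + h2

end H862R2.DS
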