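import Pool.Agent.H177R2.SD.Avg
import Pool.Agent.H177R2.SD.Small
import Pool.Agent.Helper591.APRec

/-!
# Density lemmas
-/

namespace H862R2.DS

open Finset Filter Topology

/-- finite sets of primes in a residue class with a large sum of reciprocals -/
theorem ap_primes {q : ℕ} [NeZero q] {a : ZMod q} (ha : IsUnit a) (B : ℕ) (L : ℝ) :
    ∃ K : Finset ℕ, (∀ p ∈ K, p.Prime ∧ B < p ∧ (p : ZMod q) = a) ∧
      L ≤ ∑ p ∈ K, 1 / (p : ℝ) := by
  have hns := Pool.Agent.Helper591.APRec.not_summable_g ha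
  rw [not_summable_iff_tendsto_nat_atTop_of_nonneg
    (fun n => Pool.Agent.Helper591.APRec.g_nonneg _ n)] at hns
  obtain ⟨N, hN⟩ := (hns.eventually_ge_atTop
    (L + ∑ n ∈ range (B + 1), Pool.Agent.Helper591.APRec.g a n)).exists
  refine ⟨(range N \ range (B + 1)).filter (fun p : ℕ => p.Prime ∧ (p : ZMod q) = a), ?_, ?_⟩
  · intro p hp
    simp only [mem_filter, Finset.mem_sdiff, mem_range] at hp
    obtain ⟨⟨-, hpB⟩, hpp, hpe⟩ := hp
    exact ⟨hpp, by omega, hpe⟩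
  · have h1 : ∑ p ∈ (range N \ range (B + 1)).filter
        (fun p : ℕ => p.Prime ∧ (p : ZMod q) = a), 1 / (p : ℝ) =
        ∑ p ∈ range N \ range (B + 1), Pool.Agent.Helper591.APRec.g a p := by
      rw [sum_filter]
      rfl
    rw [h1]
    have h2 : ∑ p ∈ range N, Pool.Agent.Helper591.APRec.g a p ≤
        ∑ p ∈ range N \ range (B + 1), Pool.Agent.Helper591.APRec.g a p +
        ∑ p ∈ range (B + 1), Pool.Agent.Helper591.APRec.g a p := by
      rw [← sum_union sdiff_disjoint]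
      refine sum_le_sum_of_subset_of_nonneg ?_ ?_
      · intro x hx
        by_cases h : x ∈ range (B + 1)
        · exact mem_union_right _ h
        · exact mem_union_left _ (Finset.mem_sdiff.2 ⟨hx, h⟩)
      · intro i _ _
        exact Pool.Agent.Helper591.APRec.g_nonneg _ _
    linarith

/-- the counting bound for a family of periodic conditions with means `≤ exp (-c / p)` -/
theorem count_le (K : Finset ℕ) (q : ℕ → ℕ) (hq : ∀ p ∈ K, 0 < q p)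
    (hcop : (K : Set ℕ).Pairwise fun p p' => Nat.Coprime (q p) (q p'))
    (f : ℕ → ℕ → ℝ) (hf : ∀ p ∈ K, ∀ n, 0 ≤ f p n ∧ f p n ≤ 1)
    (hper : ∀ p ∈ K, ∀ n, f p (n + q p) = f p n) (c : ℝ)
    (hmean : ∀ p ∈ K, (∑ n ∈ range (q p), f p n) / q p ≤ Real.exp (-(c * (1 / (p : ℝ)))))
    (M X : ℕ) :
    ∑ n ∈ Ico M (M + X), ∏ p ∈ K, f p n
      ≤ Real.exp (-(c * ∑ p ∈ K, 1 / (p : ℝ))) * X + ∏ p ∈ K, (q p : ℝ) := by
  have h := Pool.Agent.H177R2.SD.avg1 K q hq hcop f hf hper M X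
  have h1 : ∏ p ∈ K, ((∑ n ∈ range (q p), f p n) / q p)
      ≤ Real.exp (-(c * ∑ p ∈ K, 1 / (p : ℝ))) := by
    rw [mul_sum, ← sum_neg_distrib, Real.exp_sum]
    refine prod_le_prod (fun p hp => ?_) hmean
    exact div_nonneg (sum_nonneg fun n _ => (hf p hp n).1) (Nat.cast_nonneg _)
  have h2 := (abs_le.1 h).2
  have h3 : (X : ℝ) * ∏ p ∈ K, ((∑ n ∈ range (q p), f p n) / q p)
      ≤ X * Real.exp (-(c * ∑ p ∈ K, 1 / (p : ℝ))) :=
    mul_le_mul_of_nonneg_left h1 (Nat.cast_nonneg _)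
  linarith

theorem exists_nonres {s : ℕ} (hs : s.Prime) (hs2 : s ≠ 2) :
    ∃ a : ZMod s, IsUnit a ∧ ¬ IsSquare a := by
  have : Fact s.Prime := ⟨hs⟩
  obtain ⟨a, ha⟩ := FiniteField.exists_nonsquare (F := ZMod s) (by
    rw [ZMod.ringChar_zmod_n]; exact hs2)
  refine ⟨a, ?_, ha⟩
  refine isUnit_iff_ne_zero.2 ?_
  rintro rfl
  exact ha ⟨0, by simp⟩

/-- For a fixed odd prime `s`, almost all `n` are divisible exactly once by some odd prime which
is not a square modulo `s`. -/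
theorem dens_one {s : ℕ} (hs : s.Prime) (hs2 : s ≠ 2) {ε : ℝ} (hε : 0 < ε) :
    ∃ C : ℝ, ∀ X : ℕ, ∀ A : Finset ℕ, A ⊆ Icc 1 X →
      (∀ n ∈ A, ∀ p : ℕ, p.Prime → p ≠ 2 → p ∣ n → ¬ p ^ 2 ∣ n → IsSquare ((p : ℕ) : ZMod s)) →
      (A.card : ℝ) ≤ ε * X + C := by
  have : Fact s.Prime := ⟨hs⟩
  have : NeZero s := ⟨hs.ne_zero⟩
  obtain ⟨a, hau, hans⟩ := exists_nonres hs hs2
  obtain ⟨K, hK, hL⟩ := ap_primes hau 2 (2 * -Real.log ε)
  refine ⟨∏ p ∈ K, ((p ^ 2 : ℕ) : ℝ), fun X A hA hAp => ?_⟩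
  have hb := count_le K (fun p => p ^ 2) (fun p hp => pow_pos (hK p hp).1.pos 2)
    (fun p hp q hq hne => Nat.Coprime.pow 2 2
      ((Nat.coprime_primes (hK p hp).1 (hK q hq).1).2 hne))
    (fun p n => Pool.Agent.H177R2.SD.smallF 1 p n)
    (fun p _ n => Pool.Agent.H177R2.SD.smallF_mem 1 p n)
    (fun p _ n => Pool.Agent.H177R2.SD.smallF_per 1 p n) (1 / 2)
    (fun p hp => Pool.Agent.H177R2.SD.smallF_mean (hK p hp).1
      (by
        have := (hK p hp).1.two_le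
        exact fun h => by
          have := Nat.le_of_dvd one_pos h
          omega)) 0 X
  have h1 : (A.card : ℝ) ≤ ∑ n ∈ Ico 0 (0 + X), ∏ p ∈ K, Pool.Agent.H177R2.SD.smallF 1 p n := by
    have h2 : (A.card : ℝ) = ∑ n ∈ A, (1 : ℝ) := by simp
    have h3 : ∀ n ∈ A, (1 : ℝ) = ∏ p ∈ K, Pool.Agent.H177R2.SD.smallF 1 p (n - 1) := by
      intro n hn
      have hn1 := (mem_Icc.1 (hA hn)).1
      symm
      refine prod_eq_one fun p hp => ?_
      unfold Pool.Agent.H177R2.SD.smallF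
      rw [if_neg]
      rintro ⟨h4, h5⟩
      rw [mul_one, Nat.sub_add_cancel hn1] at h4 h5
      obtain ⟨hpp, hp2, hpa⟩ := hK p hp
      have h6 := hAp n hn p hpp (by omega) h4 h5
      rw [hpa] at h6
      exact hans h6
    rw [h2, sum_congr rfl h3]
    have h4 : ∑ n ∈ A, ∏ p ∈ K, Pool.Agent.H177R2.SD.smallF 1 p (n - 1)
        = ∑ n ∈ A.image (fun n => n - 1), ∏ p ∈ K, Pool.Agent.H177R2.SD.smallF 1 p n := by
      rw [sum_image]
      intro x hx y hy hxy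
      have hx1 := (mem_Icc.1 (hA hx)).1
      have hy1 := (mem_Icc.1 (hA hy)).1
      simp only at hxy
      omega
    rw [h4]
    refine sum_le_sum_of_subset_of_nonneg ?_ fun n _ _ => prod_nonneg fun p _ =>
      (Pool.Agent.H177R2.SD.smallF_mem 1 p n).1
    intro x hx
    obtain ⟨n, hn, rfl⟩ := mem_image.1 hx
    have := mem_Icc.1 (hA hn)
    rw [mem_Ico]
    omega
  have h5 : Real.exp (-(1 / 2 * ∑ p ∈ K, 1 / (p : ℝ))) ≤ ε := by
    rw [← Real.exp_log hε]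
    refine Real.exp_le_exp.2 ?_
    linarith
  have h6 : Real.exp (-(1 / 2 * ∑ p ∈ K, 1 / (p : ℝ))) * X ≤ ε * X :=
    mul_le_mul_of_nonneg_right h5 (Nat.cast_nonneg _)
  linarith

open Classical in
/-- zero if `n` is a nontrivial `ℓ`-th root of unity modulo `s`, and one otherwise -/
noncomputable def rf (ℓ s n : ℕ) : ℝ :=
  if (n : ZMod s) ^ ℓ = 1 ∧ (n : ZMod s) ≠ 1 then 0 else 1

theorem rf_mem (ℓ s n : ℕ) : 0 ≤ rf ℓ s n ∧ rf ℓ s n ≤ 1 := by
  unfold rf; split_ifs <;> norm_num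

theorem rf_per (ℓ s n : ℕ) : rf ℓ s (n + s) = rf ℓ s n := by
  unfold rf
  have : ((n + s : ℕ) : ZMod s) = (n : ZMod s) := by simp
  rw [this]

theorem rf_mean {ℓ s : ℕ} (hℓ : ℓ.Prime) (hs : s.Prime) (h : (s : ZMod ℓ) = 1) :
    (∑ n ∈ range s, rf ℓ s n) / s ≤ Real.exp (-(1 * (1 / (s : ℝ)))) := by
  have : Fact s.Prime := ⟨hs⟩
  have : Fact ℓ.Prime := ⟨hℓ⟩
  have hdvd : ℓ ∣ s - 1 := by
    rw [← Nat.modEq_iff_dvd' hs.one_le]
    have := (ZMod.natCast_eq_natCast_iff s 1 ℓ).1 (by rw [h]; simp)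
    exact this.symm
  obtain ⟨g, hg⟩ := exists_prime_orderOf_dvd_card (G := (ZMod s)ˣ) ℓ (by
    rw [ZMod.card_units_eq_totient, Nat.totient_prime hs]; exact hdvd)
  have hg1 : ((g : ZMod s)) ^ ℓ = 1 := by
    rw [← Units.val_pow_eq_pow_val, ← hg, pow_orderOf_eq_one]; rfl
  have hg2 : (g : ZMod s) ≠ 1 := by
    intro h1
    have : g = 1 := Units.ext h1
    rw [this, orderOf_one] at hg
    exact hℓ.one_lt.ne hg
  set n0 : ℕ := (g : ZMod s).val with hn0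
  have hcast : ((n0 : ℕ) : ZMod s) = (g : ZMod s) := by
    rw [hn0]; simp
  have hlt : n0 < s := ZMod.val_lt _
  have h0 : rf ℓ s n0 = 0 := by
    unfold rf
    rw [if_pos]
    rw [hcast]
    exact ⟨hg1, hg2⟩
  have hsum : ∑ n ∈ range s, rf ℓ s n ≤ s - 1 := by
    rw [← Finset.sum_erase_add _ _ (mem_range.2 hlt), h0, add_zero]
    have h1 : ∑ n ∈ (range s).erase n0, rf ℓ s n ≤ ∑ n ∈ (range s).erase n0, (1 : ℝ) :=
      sum_le_sum fun n _ => (rf_mem ℓ s n).2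
    refine h1.trans (le_of_eq ?_)
    rw [sum_const, card_erase_of_mem (mem_range.2 hlt), card_range, nsmul_eq_mul,
      Nat.cast_sub hs.one_le]
    simp
  have hs0 : (0 : ℝ) < s := by exact_mod_cast hs.pos
  calc (∑ n ∈ range s, rf ℓ s n) / s ≤ (s - 1) / s := by gcongr
    _ = -(1 * (1 / (s : ℝ))) + 1 := by field_simp; ring
    _ ≤ Real.exp (-(1 * (1 / (s : ℝ)))) := Real.add_one_le_exp _

/-- For a fixed prime `ℓ`, almost all `n` have a finite set of primes `s` (from a fixed finite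
set) modulo one of which `n` is a nontrivial `ℓ`-th root of unity. -/
theorem dens_two {ℓ : ℕ} (hℓ : ℓ.Prime) {ε : ℝ} (hε : 0 < ε) :
    ∃ (Q : Finset ℕ) (C : ℝ), (∀ s ∈ Q, s.Prime ∧ s ≠ 2) ∧ ∀ X : ℕ, ∀ A : Finset ℕ, A ⊆ Icc 1 X →
      (∀ n ∈ A, ∀ s ∈ Q, ¬ ((n : ZMod s) ^ ℓ = 1 ∧ (n : ZMod s) ≠ 1)) →
      (A.card : ℝ) ≤ ε * X + C := by
  have : NeZero ℓ := ⟨hℓ.ne_zero⟩
  obtain ⟨K, hK, hL⟩ := ap_primes (q := ℓ) (a := 1) isUnit_one 2 (-Real.log ε)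
  refine ⟨K, ∏ p ∈ K, (p : ℝ), fun s hs => ⟨(hK s hs).1, by have := (hK s hs).2.1; omega⟩,
    fun X A hA hAp => ?_⟩
  have hb := count_le K (fun p => p) (fun p hp => (hK p hp).1.pos)
    (fun p hp q hq hne => (Nat.coprime_primes (hK p hp).1 (hK q hq).1).2 hne)
    (fun p n => rf ℓ p n) (fun p _ n => rf_mem ℓ p n) (fun p _ n => rf_per ℓ p n) 1
    (fun p hp => rf_mean hℓ (hK p hp).1 (hK p hp).2.2) 1 X
  have h1 : (A.card : ℝ) ≤ ∑ n ∈ Ico 1 (1 + X), ∏ p ∈ K, rf ℓ p n := by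
    have h2 : (A.card : ℝ) = ∑ n ∈ A, (1 : ℝ) := by simp
    have h3 : ∀ n ∈ A, (1 : ℝ) = ∏ p ∈ K, rf ℓ p n := by
      intro n hn
      symm
      refine prod_eq_one fun p hp => ?_
      unfold rf
      rw [if_neg (hAp n hn p hp)]
    rw [h2, sum_congr rfl h3]
    refine sum_le_sum_of_subset_of_nonneg ?_ fun n _ _ => prod_nonneg fun p _ => (rf_mem ℓ p n).1
    intro x hx
    have := mem_Icc.1 (hA hx)
    rw [mem_Ico]
    omega
  have h5 : Real.exp (-(1 * ∑ p ∈ K, 1 / (p : ℝ))) ≤ ε := by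
    rw [← Real.exp_log hε]
    refine Real.exp_le_exp.2 ?_
    linarith
  have h6 : Real.exp (-(1 * ∑ p ∈ K, 1 / (p : ℝ))) * X ≤ ε * X :=
    mul_le_mul_of_nonneg_right h5 (Nat.cast_nonneg _)
  linarith

/-- a criterion for natural density zero -/
theorem dens_zero (B : Set ℕ) (h : ∀ ε : ℝ, 0 < ε → ∃ C : ℝ, ∀ X : ℕ, ∀ A : Finset ℕ,
    A ⊆ Icc 1 X → (∀ n ∈ A, n ∈ B) → (A.card : ℝ) ≤ ε * X + C) [DecidablePred (· ∈ B)] :
    Tendsto (fun X : ℕ => (((Icc 1 X).filter (· ∈ B)).card : ℝ) / X) atTop (𝓝 0) := by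
  rw [Metric.tendsto_atTop]
  intro ε hε
  obtain ⟨C, hC⟩ := h (ε / 2) (by linarith)
  obtain ⟨N, hN⟩ := exists_nat_gt (2 * |C| / ε)
  refine ⟨max N 1, fun X hX => ?_⟩
  have hXN : (N : ℝ) ≤ X := by exact_mod_cast (le_max_left _ _).trans hX
  have hX1 : (1 : ℝ) ≤ X := by exact_mod_cast (le_max_right _ _).trans hX
  rw [Real.dist_eq, sub_zero, abs_of_nonneg (by positivity), div_lt_iff₀ (by linarith)]
  have h1 := hC X ((Icc 1 X).filter (· ∈ B)) (filter_subset _ _)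
    (fun n hn => (mem_filter.1 hn).2)
  have h2 : 2 * |C| < ε * X := by
    have : 2 * |C| / ε < X := lt_of_lt_of_le hN hXN
    rw [div_lt_iff₀ hε] at this
    linarith
  have h3 := le_abs_self C
  linarith

end H862R2.DS
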