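import Pool.Agent.H862R2.DS.Loc

/-!
# Orbit matrices of difference sets in arbitrary groups
-/

namespace H862R2.DS

open Matrix Finset

/-- `D` is a `(|G|, k, l)` difference set in the finite group `G`: it has `k` elements and every
`g ≠ 1` has exactly `l` representations `g = d₁ d₂⁻¹` with `d₁, d₂ ∈ D`. -/
def IsDiffSet {G : Type*} [Group G] [DecidableEq G] (D : Finset G) (k l : ℕ) : Prop :=
  D.card = k ∧ ∀ g : G, g ≠ 1 → ((D ×ˢ D).filter fun x => x.1 * x.2⁻¹ = g).card = l

section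

open Classical in
/-- the orbit matrix of `D` on the left cosets of `H` -/
noncomputable def om {G : Type*} [Group G] (D : Finset G) (H : Subgroup G) :
    Matrix (G ⧸ H) (G ⧸ H) ℚ :=
  Matrix.of fun x y => ∑ d ∈ D, if d • y = x then (1 : ℚ) else 0

variable {G : Type*} [Group G] [Fintype G] [DecidableEq G]

theorem card_trans (H : Subgroup G) [DecidableEq (G ⧸ H)] (x y : G ⧸ H) :
    (Finset.univ.filter fun g : G => g • x = y).card = Nat.card H := by
  obtain ⟨a, rfl⟩ := QuotientGroup.mk_surjective x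
  obtain ⟨b, rfl⟩ := QuotientGroup.mk_surjective y
  rw [← Fintype.card_subtype, ← Nat.card_eq_fintype_card]
  have key : ∀ g : G, g • (a : G ⧸ H) = (b : G ⧸ H) ↔ (g * a)⁻¹ * b ∈ H := fun g => by
    rw [MulAction.Quotient.smul_coe, smul_eq_mul]
    exact QuotientGroup.eq
  refine Nat.card_congr ?_
  refine ⟨fun g => ⟨(g.1 * a)⁻¹ * b, (key g.1).1 g.2⟩,
    fun h => ⟨b * (h.1)⁻¹ * a⁻¹, (key _).2 ?_⟩, fun g => ?_, fun h => ?_⟩
  · have : (b * (h.1)⁻¹ * a⁻¹ * a)⁻¹ * b = h.1 := by group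
    rw [this]; exact h.2
  · apply Subtype.ext
    show b * ((g.1 * a)⁻¹ * b)⁻¹ * a⁻¹ = g.1
    group
  · apply Subtype.ext
    show (b * (h.1)⁻¹ * a⁻¹ * a)⁻¹ * b = h.1
    group

theorem card_one_fiber (D : Finset G) :
    ((D ×ˢ D).filter fun x => x.1 * x.2⁻¹ = 1).card = D.card := by
  refine Finset.card_nbij' (fun x => x.1) (fun d => (d, d)) ?_ ?_ ?_ ?_
  · intro x hx
    simp only [Finset.coe_filter, Finset.mem_product, Set.mem_setOf_eq] at hx
    exact hx.1.1
  · intro d hd
    simp only [Finset.coe_filter, Finset.mem_product, Set.mem_setOf_eq, mul_inv_cancel, and_true]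
    exact ⟨hd, hd⟩
  · intro x hx
    simp only [Finset.coe_filter, Finset.mem_product, Set.mem_setOf_eq] at hx
    have := mul_inv_eq_one.1 hx.2
    exact Prod.ext rfl this
  · intro d _
    rfl

theorem om_mul {D : Finset G} {n l : ℕ} (hD : IsDiffSet D (n + l) l) (H : Subgroup G)
    [Fintype (G ⧸ H)] [DecidableEq (G ⧸ H)] :
    om D H * (om D H)ᵀ = (n : ℚ) • (1 : Matrix (G ⧸ H) (G ⧸ H) ℚ)
      + ((l * Nat.card H : ℕ) : ℚ) • Matrix.of fun _ _ => (1 : ℚ) := by
  ext x x'
  have hom : ∀ x y, om D H x y = ∑ d ∈ D, if d • y = x then (1 : ℚ) else 0 := by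
    intro x y
    unfold om
    rw [Matrix.of_apply]
    refine Finset.sum_congr rfl fun d _ => ?_
    congr
  rw [Matrix.mul_apply]
  simp only [Matrix.transpose_apply, hom]
  -- swap the sums
  have e1 : ∑ y : G ⧸ H, (∑ d ∈ D, if d • y = x then (1 : ℚ) else 0)
        * (∑ d ∈ D, if d • y = x' then (1 : ℚ) else 0)
      = ∑ z ∈ D ×ˢ D, if (z.1 * z.2⁻¹) • x = x' then (1 : ℚ) else 0 := by
    have e2 : ∀ y : G ⧸ H, (∑ d ∈ D, if d • y = x then (1 : ℚ) else 0)
        * (∑ d ∈ D, if d • y = x' then (1 : ℚ) else 0)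
        = ∑ z ∈ D ×ˢ D, (if z.2 • y = x ∧ z.1 • y = x' then (1 : ℚ) else 0) := by
      intro y
      rw [mul_comm, Finset.sum_mul_sum, Finset.sum_product]
      refine Finset.sum_congr rfl fun a _ => Finset.sum_congr rfl fun b _ => ?_
      split_ifs <;> simp_all
    simp only [e2]
    rw [Finset.sum_comm]
    refine Finset.sum_congr rfl fun z _ => ?_
    rw [Finset.sum_eq_single (z.2⁻¹ • x)]
    · simp only [smul_inv_smul, true_and, mul_smul]
    · intro y _ hy
      rw [if_neg]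
      rintro ⟨h, -⟩
      exact hy (by rw [← h, inv_smul_smul])
    · intro h
      exact absurd (Finset.mem_univ _) h
  rw [e1]
  have e3 : ∑ z ∈ D ×ˢ D, (if (z.1 * z.2⁻¹) • x = x' then (1 : ℚ) else 0)
      = ∑ g : G, (((D ×ˢ D).filter fun z => z.1 * z.2⁻¹ = g).card : ℚ)
        * (if g • x = x' then (1 : ℚ) else 0) := by
    rw [← Finset.sum_fiberwise (D ×ˢ D) (fun z : G × G => z.1 * z.2⁻¹)]
    refine Finset.sum_congr rfl fun g _ => ?_
    rw [← nsmul_eq_mul, ← Finset.sum_const]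
    refine Finset.sum_congr rfl fun z hz => ?_
    rw [(Finset.mem_filter.1 hz).2]
  rw [e3]
  have e4 : ∀ g : G, (((D ×ˢ D).filter fun z => z.1 * z.2⁻¹ = g).card : ℚ)
        * (if g • x = x' then (1 : ℚ) else 0)
      = (if g = 1 then (n : ℚ) * (if x = x' then (1 : ℚ) else 0) else 0)
        + l * (if g • x = x' then (1 : ℚ) else 0) := by
    intro g
    by_cases hg : g = 1
    · subst hg
      rw [card_one_fiber, hD.1, one_smul, if_pos rfl]
      push_cast
      ring
    · rw [hD.2 g hg, if_neg hg, zero_add]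
  simp only [e4]
  rw [Finset.sum_add_distrib, Finset.sum_ite_eq', if_pos (Finset.mem_univ _), ← Finset.mul_sum,
    Finset.sum_boole, card_trans]
  simp only [Matrix.add_apply, Matrix.smul_apply, Matrix.one_apply, Matrix.of_apply, smul_eq_mul]
  push_cast
  ring

/-- **The local condition for every subgroup of every group.** -/
theorem diff_loc {D : Finset G} {n l : ℕ} (hn : 0 < n) (hD : IsDiffSet D (n + l) l)
    (H : Subgroup G) (hw : Odd (Nat.card (G ⧸ H))) {p : ℕ} (hp : p.Prime)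
    (hodd : Odd (padicValNat p n)) :
    IsSquare (((-1) ^ ((Nat.card (G ⧸ H) - 1) / 2) * (l * Nat.card H : ℕ) : ℤ) : ZMod p) := by
  classical
  letI : Fintype (G ⧸ H) := Fintype.ofFinite _
  rw [Nat.card_eq_fintype_card] at hw ⊢
  refine brc_loc (om D H) n (l * Nat.card H : ℕ) hn ?_ hw hp hodd
  rw [om_mul hD H]
  simp

end

end H862R2.DS
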