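import Pool.Agent.H862R2.DS.BRC

/-!
# Local consequence of the rational equation
-/

namespace H862R2.DS

open Matrix Finset

/-- if `d` is a nonresidue modulo `p` and `p ∣ X² - d Z²`, then `p` divides `X` and `Z` -/
theorem dvd_of_nonres {p : ℕ} (hp : p.Prime) {d : ℤ} (hd : ¬ IsSquare ((d : ℤ) : ZMod p))
    {X Z : ℤ} (h : (p : ℤ) ∣ X ^ 2 - d * Z ^ 2) : (p : ℤ) ∣ X ∧ (p : ℤ) ∣ Z := by
  have : Fact p.Prime := ⟨hp⟩
  have h1 : ((X : ℤ) : ZMod p) ^ 2 = (d : ZMod p) * ((Z : ℤ) : ZMod p) ^ 2 := by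
    have := (ZMod.intCast_zmod_eq_zero_iff_dvd _ _).2 h
    push_cast at this
    linear_combination this
  have hZ : ((Z : ℤ) : ZMod p) = 0 := by
    by_contra hne
    apply hd
    refine ⟨(X : ZMod p) / (Z : ZMod p), ?_⟩
    rw [div_mul_div_comm, eq_div_iff (mul_ne_zero hne hne)]
    linear_combination -h1
  have hX : ((X : ℤ) : ZMod p) = 0 := by
    rw [hZ] at h1
    have : ((X : ℤ) : ZMod p) ^ 2 = 0 := by rw [h1]; ring
    exact pow_eq_zero_iff two_ne_zero |>.1 this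
  exact ⟨(ZMod.intCast_zmod_eq_zero_iff_dvd _ _).1 hX, (ZMod.intCast_zmod_eq_zero_iff_dvd _ _).1 hZ⟩

theorem even_step {p : ℕ} (hp : p.Prime) {d : ℤ} (hd : ¬ IsSquare ((d : ℤ) : ZMod p)) (j : ℕ) :
    ∀ X Z : ℤ, (p : ℤ) ^ (2 * j + 1) ∣ X ^ 2 - d * Z ^ 2 →
      (p : ℤ) ^ (2 * j + 2) ∣ X ^ 2 - d * Z ^ 2 := by
  have hp0 : (p : ℤ) ≠ 0 := by exact_mod_cast hp.ne_zero
  induction j with
  | zero =>
    intro X Z h
    obtain ⟨⟨a, rfl⟩, ⟨b, rfl⟩⟩ := dvd_of_nonres hp hd (by simpa using h)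
    exact ⟨a ^ 2 - d * b ^ 2, by ring⟩
  | succ j ih =>
    intro X Z h
    have h0 : (p : ℤ) ∣ X ^ 2 - d * Z ^ 2 := (dvd_pow_self _ (by omega)).trans h
    obtain ⟨⟨a, rfl⟩, ⟨b, rfl⟩⟩ := dvd_of_nonres hp hd h0
    have e : (p * a : ℤ) ^ 2 - d * (p * b) ^ 2 = p ^ 2 * (a ^ 2 - d * b ^ 2) := by ring
    rw [e] at h ⊢
    have e1 : (p : ℤ) ^ (2 * (j + 1) + 1) = (p : ℤ) ^ 2 * (p : ℤ) ^ (2 * j + 1) := by
      rw [← pow_add]; congr 1; ring
    have e2 : (p : ℤ) ^ (2 * (j + 1) + 2) = (p : ℤ) ^ 2 * (p : ℤ) ^ (2 * j + 2) := by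
      rw [← pow_add]; congr 1; ring
    rw [e1] at h
    rw [e2]
    exact mul_dvd_mul_left _ (ih a b (Int.dvd_of_mul_dvd_mul_left (pow_ne_zero 2 hp0) h))

/-- no solutions of `X² - d Z² = N` when `N ≠ 0` has odd valuation -/
theorem no_sol {p : ℕ} (hp : p.Prime) {d : ℤ} (hd : ¬ IsSquare ((d : ℤ) : ZMod p)) {X Z N : ℤ}
    (h : X ^ 2 - d * Z ^ 2 = N) (hN : N ≠ 0) (hodd : Odd (padicValInt p N)) : False := by
  have : Fact p.Prime := ⟨hp⟩
  obtain ⟨j, hj⟩ := hodd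
  have h1 : (p : ℤ) ^ (2 * j + 1) ∣ N := by
    rw [← hj]; exact padicValInt_dvd N
  have h2 := even_step hp hd j X Z (by rw [h]; exact h1)
  rw [h] at h2
  have h3 := (padicValInt_dvd_iff (p := p) (2 * j + 2) N).1 h2
  rcases h3 with h3 | h3
  · exact hN h3
  · omega

/-- rational version -/
theorem no_sol_rat {p : ℕ} (hp : p.Prime) {d : ℤ} (hd : ¬ IsSquare ((d : ℤ) : ZMod p))
    {n : ℕ} (hn : 0 < n) (hodd : Odd (padicValNat p n)) {X Z Y : ℚ}
    (h : X ^ 2 - d * Z ^ 2 = n * Y ^ 2) (hY : Y ≠ 0) : False := by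
  have : Fact p.Prime := ⟨hp⟩
  -- clear denominators
  obtain ⟨D, hD0, x, y, z, hx, hy, hz⟩ : ∃ D : ℤ, D ≠ 0 ∧ ∃ x y z : ℤ,
      (x : ℚ) = D * X ∧ (y : ℚ) = D * Y ∧ (z : ℚ) = D * Z := by
    refine ⟨X.den * Y.den * Z.den, ?_, X.num * Y.den * Z.den, Y.num * X.den * Z.den,
      Z.num * X.den * Y.den, ?_, ?_, ?_⟩
    · have h1 := X.den_nz
      have h2 := Y.den_nz
      have h3 := Z.den_nz
      have : ((X.den * Y.den * Z.den : ℕ) : ℤ) ≠ 0 := by
        exact_mod_cast mul_ne_zero (mul_ne_zero h1 h2) h3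
      push_cast at this
      exact this
    · push_cast
      have e := Rat.mul_den_eq_num X
      linear_combination (-(Y.den : ℚ) * Z.den) * e
    · push_cast
      have e := Rat.mul_den_eq_num Y
      linear_combination (-(X.den : ℚ) * Z.den) * e
    · push_cast
      have e := Rat.mul_den_eq_num Z
      linear_combination (-(X.den : ℚ) * Y.den) * e
  have hy0 : y ≠ 0 := by
    intro h0
    rw [h0, Int.cast_zero] at hy
    rcases mul_eq_zero.1 hy.symm with h1 | h1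
    · exact hD0 (by exact_mod_cast h1)
    · exact hY h1
  have hZ : x ^ 2 - d * z ^ 2 = n * y ^ 2 := by
    have : ((x ^ 2 - d * z ^ 2 : ℤ) : ℚ) = ((n * y ^ 2 : ℤ) : ℚ) := by
      push_cast
      rw [hx, hy, hz]
      linear_combination (D : ℚ) ^ 2 * h
    exact_mod_cast this
  have hn0 : (n : ℤ) ≠ 0 := by exact_mod_cast hn.ne'
  refine no_sol hp hd hZ (mul_ne_zero hn0 (pow_ne_zero 2 hy0)) ?_
  rw [padicValInt.mul hn0 (pow_ne_zero 2 hy0), padicValInt.of_nat, pow_two,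
    padicValInt.mul hy0 hy0]
  exact hodd.add_even ⟨_, rfl⟩

variable {κ : Type*} [Fintype κ] [DecidableEq κ]

/-- **Local Bruck–Ryser–Chowla for orbit matrices.** -/
theorem brc_loc (M : Matrix κ κ ℚ) (n : ℕ) (c : ℤ) (hn : 0 < n)
    (hM : M * Mᵀ = (n : ℚ) • (1 : Matrix κ κ ℚ) + (c : ℚ) • Matrix.of fun _ _ => (1 : ℚ))
    (hw : Odd (Fintype.card κ)) {p : ℕ} (hp : p.Prime) (hodd : Odd (padicValNat p n)) :
    IsSquare (((-1) ^ ((Fintype.card κ - 1) / 2) * c : ℤ) : ZMod p) := by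
  by_contra hcon
  obtain ⟨t, ht⟩ := hw
  rcases Nat.even_or_odd t with h2 | h2
  · obtain ⟨X, Y, Z, hY, h⟩ := brc_one M n c hn hM (by
      obtain ⟨r, hr⟩ := h2
      omega)
    have e : (-1 : ℤ) ^ ((Fintype.card κ - 1) / 2) = 1 := by
      rw [ht]
      have : (2 * t + 1 - 1) / 2 = t := by omega
      rw [this]
      exact h2.neg_one_pow
    rw [e, one_mul] at hcon
    refine no_sol_rat hp hcon hn hodd (X := X) (Z := Z) (Y := Y) ?_ hY
    linear_combination h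
  · obtain ⟨X, Y, Z, hY, h⟩ := brc_three M n c hn hM (by
      obtain ⟨r, hr⟩ := h2
      omega)
    have e : (-1 : ℤ) ^ ((Fintype.card κ - 1) / 2) = -1 := by
      rw [ht]
      have : (2 * t + 1 - 1) / 2 = t := by omega
      rw [this]
      exact h2.neg_one_pow
    rw [e] at hcon
    -- `Y² + c Z² = n X²`
    by_cases hX : X = 0
    · -- then `Y² = - c Z²`, impossible as `-c` is not a square
      subst hX
      have hZ : Z ≠ 0 := by
        rintro rfl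
        apply hY
        have : Y ^ 2 = 0 := by rw [h]; ring
        exact pow_eq_zero_iff two_ne_zero |>.1 this
      have h3 : (Y / Z) ^ 2 = ((-1 * c : ℤ) : ℚ) := by
        rw [div_pow, div_eq_iff (pow_ne_zero 2 hZ)]
        push_cast
        linear_combination h
      have h4 : IsSquare ((-1 * c : ℤ) : ℚ) := ⟨Y / Z, by rw [← h3]; ring⟩
      have h5 : IsSquare (-1 * c : ℤ) := Rat.isSquare_intCast_iff.1 h4
      obtain ⟨b, hb⟩ := h5
      exact hcon ⟨((b : ℤ) : ZMod p), by rw [hb]; push_cast; ring⟩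
    · refine no_sol_rat hp hcon hn hodd (X := Y) (Z := Z) (Y := X) ?_ hX
      push_cast
      linear_combination h

end H862R2.DS
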