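import Pool.Agent.H862R2.DS.Sing
import Pool.Agent.H862R2.DS.Dens

/-!
# Orders of difference sets with Singer parameters have density zero
-/

namespace H862R2.DS

open Finset Filter Topology

theorem dvd_gs {m n ℓ s : ℕ} (hs : s.Prime) (hℓ : ℓ ∣ m) (hn : 1 ≤ n)
    (h : (n : ZMod s) ^ ℓ = 1 ∧ (n : ZMod s) ≠ 1) : s ∣ gs m n := by
  have : Fact s.Prime := ⟨hs⟩
  rw [← ZMod.natCast_eq_zero_iff]
  have h1 : ((gs m n : ℕ) : ZMod s) * ((n : ZMod s) - 1) = 0 := by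
    unfold gs
    push_cast
    rw [geom_sum_mul]
    obtain ⟨k, rfl⟩ := hℓ
    rw [pow_mul, h.1, one_pow, sub_self]
  rcases mul_eq_zero.1 h1 with h2 | h2
  · exact h2
  · exact absurd (sub_eq_zero.1 h2) h.2

theorem singer_density {m : ℕ} (hm : 3 ≤ m) (hmo : Odd m) (ε : ℝ) (hε : 0 < ε) :
    ∃ C : ℝ, ∀ X : ℕ, ∀ A : Finset ℕ, A ⊆ Icc 1 X →
      (∀ n ∈ A, 2 ≤ n ∧ Singer m n) → (A.card : ℝ) ≤ ε * X + C := by
  classical
  obtain ⟨ℓ, hℓ, hℓm⟩ := Nat.exists_prime_and_dvd (show m ≠ 1 by omega)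
  obtain ⟨Q, C0, hQ, hQ2⟩ := dens_two hℓ (show 0 < ε / 2 by linarith)
  have hQc : (0 : ℝ) < (Q.card : ℝ) + 1 := by positivity
  have hone : ∀ s ∈ Q, ∃ C : ℝ, ∀ X : ℕ, ∀ A : Finset ℕ, A ⊆ Icc 1 X →
      (∀ n ∈ A, ∀ p : ℕ, p.Prime → p ≠ 2 → p ∣ n → ¬ p ^ 2 ∣ n → IsSquare ((p : ℕ) : ZMod s)) →
      (A.card : ℝ) ≤ (ε / (2 * (Q.card + 1))) * X + C := fun s hs =>
    dens_one (hQ s hs).1 (hQ s hs).2 (by positivity)
  choose! Cs hCs using hone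
  refine ⟨C0 + ∑ s ∈ Q, Cs s, fun X A hA hAS => ?_⟩
  -- decompose
  set A0 := A.filter fun n => ∀ s ∈ Q, ¬ ((n : ZMod s) ^ ℓ = 1 ∧ (n : ZMod s) ≠ 1) with hA0
  set As : ℕ → Finset ℕ := fun s =>
    A.filter fun n => (n : ZMod s) ^ ℓ = 1 ∧ (n : ZMod s) ≠ 1 with hAs
  have hcov : A ⊆ A0 ∪ Q.biUnion As := by
    intro n hn
    by_cases h : ∀ s ∈ Q, ¬ ((n : ZMod s) ^ ℓ = 1 ∧ (n : ZMod s) ≠ 1)
    · exact mem_union_left _ (mem_filter.2 ⟨hn, h⟩)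
    · push Not at h
      obtain ⟨s, hs, h⟩ := h
      exact mem_union_right _ (mem_biUnion.2 ⟨s, hs, mem_filter.2 ⟨hn, h⟩⟩)
  have h0 : (A0.card : ℝ) ≤ ε / 2 * X + C0 :=
    hQ2 X A0 ((filter_subset _ _).trans hA) fun n hn => (mem_filter.1 hn).2
  have h1 : ∀ s ∈ Q, ((As s).card : ℝ) ≤ (ε / (2 * (Q.card + 1))) * X + Cs s := by
    intro s hs
    refine hCs s hs X (As s) ((filter_subset _ _).trans hA) ?_
    intro n hn p hp hp2 hpn hpn2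
    obtain ⟨hnA, hns⟩ := mem_filter.1 hn
    obtain ⟨hn2, hS⟩ := hAS n hnA
    have : Fact p.Prime := ⟨hp⟩
    have hval : padicValNat p n = 1 := by
      have hn0 : n ≠ 0 := by omega
      have a1 : 1 ≤ padicValNat p n := one_le_padicValNat_of_dvd hn0 hpn
      have a2 : ¬ 2 ≤ padicValNat p n := fun h =>
        hpn2 ((padicValNat_dvd_iff_le hn0).2 h)
      omega
    exact singer_legendre hm hmo hn2 hS hp hp2 (by rw [hval]; decide) (hQ s hs).1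
      (dvd_gs (hQ s hs).1 hℓm (by omega) hns)
  have h2 : (A.card : ℝ) ≤ A0.card + ∑ s ∈ Q, ((As s).card : ℝ) := by
    have := (card_le_card hcov).trans ((card_union_le _ _).trans
      (Nat.add_le_add_left card_biUnion_le _))
    exact_mod_cast this
  have h3 : ∑ s ∈ Q, ((As s).card : ℝ)
      ≤ Q.card * ((ε / (2 * (Q.card + 1))) * X) + ∑ s ∈ Q, Cs s := by
    refine (sum_le_sum h1).trans (le_of_eq ?_)
    rw [sum_add_distrib, sum_const, nsmul_eq_mul]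
  have h4 : (Q.card : ℝ) * ((ε / (2 * (Q.card + 1))) * X) ≤ ε / 2 * X := by
    have e : (Q.card : ℝ) * ((ε / (2 * (Q.card + 1))) * X)
        = ((Q.card : ℝ) / (Q.card + 1)) * (ε / 2 * X) := by
      field_simp
    rw [e]
    have h5 : (Q.card : ℝ) / (Q.card + 1) ≤ 1 := by
      rw [div_le_one hQc]; linarith
    have h6 : 0 ≤ ε / 2 * X := by positivity
    nlinarith
  linarith

end H862R2.DS
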