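import Pool.Agent.H862R2.DS.Grp

/-!
# The Legendre condition for difference sets with Singer parameters
-/

namespace H862R2.DS

open Matrix Finset

/-- Some group of order `(n^m - 1)/(n - 1)` contains a difference set with the Singer parameters
`(v, k, l) = ((n^m - 1)/(n - 1), (n^(m-1) - 1)/(n - 1), (n^(m-2) - 1)/(n - 1))`. -/
def Singer (m n : ℕ) : Prop :=
  ∃ (G : Type) (_ : Group G) (_ : Fintype G) (_ : DecidableEq G) (D : Finset G),
    Fintype.card G * (n - 1) = n ^ m - 1 ∧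
    D.card * (n - 1) = n ^ (m - 1) - 1 ∧
    ∀ g : G, g ≠ 1 →
      ((D ×ˢ D).filter fun x => x.1 * x.2⁻¹ = g).card * (n - 1) = n ^ (m - 2) - 1

/-- geometric sums -/
def gs (m n : ℕ) : ℕ := ∑ i ∈ range m, n ^ i

theorem gs_succ (m n : ℕ) : gs (m + 1) n = gs m n + n ^ m := Finset.sum_range_succ _ _

theorem gs_succ' (m n : ℕ) : gs (m + 1) n = n * gs m n + 1 := by
  unfold gs
  rw [Finset.sum_range_succ', Finset.mul_sum]
  congr 1
  exact Finset.sum_congr rfl fun i _ => by rw [pow_succ]; ring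

theorem gs_mul {n : ℕ} (hn : 1 ≤ n) (m : ℕ) : gs m n * (n - 1) = n ^ m - 1 :=
  geom_sum_mul_of_one_le hn m

theorem gs_odd (t n : ℕ) : gs (2 * t + 1) n % 2 = 1 := by
  induction t with
  | zero => simp [gs]
  | succ t ih =>
    have e : gs (2 * (t + 1) + 1) n = gs (2 * t + 1) n + n ^ (2 * t) * (n * (n + 1)) := by
      rw [show 2 * (t + 1) + 1 = (2 * t + 1) + 1 + 1 by ring, gs_succ, gs_succ]
      ring
    rw [e]
    obtain ⟨r, hr⟩ := Nat.even_mul_succ_self n
    have : n ^ (2 * t) * (n * (n + 1)) = 2 * (n ^ (2 * t) * r) := by rw [hr]; ring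
    omega

theorem eq_of_mul {a b n c : ℕ} (hn : 2 ≤ n) (h1 : a * (n - 1) = c) (h2 : b * (n - 1) = c) :
    a = b := by
  have h3 : 0 < n - 1 := by omega
  exact Nat.eq_of_mul_eq_mul_right h3 (h1.trans h2.symm)

theorem recip {p s v w : ℕ} (hp : p.Prime) (hs : s.Prime) (hp2 : p ≠ 2) (hs2 : s ≠ 2)
    (hps : p ≠ s) (hv : s * w = v) (hvodd : v % 2 = 1)
    (h1 : IsSquare ((-1 : ZMod p) ^ ((v - 1) / 2)))
    (h2 : IsSquare ((-1 : ZMod p) ^ ((w - 1) / 2) * (s : ZMod p))) :
    IsSquare ((p : ℕ) : ZMod s) := by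
  have : Fact p.Prime := ⟨hp⟩
  have : Fact s.Prime := ⟨hs⟩
  have hs0 : ((s : ℕ) : ZMod p) ≠ 0 := by
    intro h
    rw [ZMod.natCast_eq_zero_iff] at h
    exact hps ((Nat.prime_dvd_prime_iff_eq hp hs).1 h)
  have hpodd : p % 2 = 1 := hp.eq_two_or_odd.resolve_left hp2
  have hsodd : s % 2 = 1 := hs.eq_two_or_odd.resolve_left hs2
  have hp4 : p % 4 = 1 ∨ p % 4 = 3 := by omega
  rcases hp4 with hp4 | hp4
  · -- `-1` is a square modulo `p`
    have hm1 : IsSquare (-1 : ZMod p) := ZMod.exists_sq_eq_neg_one_iff.2 (by omega)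
    have hsq : IsSquare ((s : ℕ) : ZMod p) := by
      have h3 := (hm1.pow ((w - 1) / 2)).mul h2
      have e : (-1 : ZMod p) ^ ((w - 1) / 2) * ((-1 : ZMod p) ^ ((w - 1) / 2) * (s : ZMod p))
          = (s : ZMod p) := by
        rw [← mul_assoc, ← mul_pow]
        simp
      rwa [e] at h3
    exact (ZMod.exists_sq_eq_prime_iff_of_mod_four_eq_one hp4 hs2).1 hsq
  · have hm1 : ¬ IsSquare (-1 : ZMod p) := fun h => by
      have := ZMod.exists_sq_eq_neg_one_iff.1 h
      omega
    have hv4 : v % 4 = 1 := by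
      by_contra hne
      have hodd : Odd ((v - 1) / 2) := by
        rw [Nat.odd_iff]; omega
      rw [hodd.neg_one_pow] at h1
      exact hm1 h1
    have hs4 : s % 4 = 1 ∨ s % 4 = 3 := by omega
    rcases hs4 with hs4 | hs4
    · have hw4 : w % 4 = 1 := by
        have h5 : (s % 4) * (w % 4) % 4 = 1 := by
          rw [← Nat.mul_mod, hv, hv4]
        rw [hs4] at h5
        omega
      have hev : Even ((w - 1) / 2) := by
        rw [Nat.even_iff]; omega
      rw [hev.neg_one_pow, one_mul] at h2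
      exact (ZMod.exists_sq_eq_prime_iff_of_mod_four_eq_one hs4 hp2).2 h2
    · have hw4 : w % 4 = 3 := by
        have h5 : (s % 4) * (w % 4) % 4 = 1 := by
          rw [← Nat.mul_mod, hv, hv4]
        rw [hs4] at h5
        omega
      have hod : Odd ((w - 1) / 2) := by
        rw [Nat.odd_iff]; omega
      rw [hod.neg_one_pow] at h2
      by_contra hcon
      have h3 : IsSquare ((s : ℕ) : ZMod p) :=
        (ZMod.exists_sq_eq_prime_iff_of_mod_four_eq_three hp4 hs4 hps).2 hcon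
      obtain ⟨a, ha⟩ := h2
      obtain ⟨b, hb⟩ := h3
      have hb0 : b ≠ 0 := by
        rintro rfl
        exact hs0 (by rw [hb]; ring)
      refine hm1 ⟨a / b, ?_⟩
      rw [div_mul_div_comm, eq_div_iff (mul_ne_zero hb0 hb0), ← ha, ← hb]

/-- **The Legendre condition.** If some group carries a difference set with the Singer parameters
of odd dimension `m`, then every odd prime `p` of odd valuation in `n` is a square modulo every
prime divisor of `v = (n^m - 1)/(n - 1)`. -/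
theorem singer_legendre {m n : ℕ} (hm : 3 ≤ m) (hmo : Odd m) (hn : 2 ≤ n) (h : Singer m n)
    {p s : ℕ} (hp : p.Prime) (hp2 : p ≠ 2) (hpn : Odd (padicValNat p n)) (hs : s.Prime)
    (hsv : s ∣ gs m n) : IsSquare ((p : ℕ) : ZMod s) := by
  classical
  obtain ⟨G, _, _, _, D, hG, hD1, hD2⟩ := h
  obtain ⟨t, ht⟩ := hmo
  obtain ⟨r, rfl⟩ : ∃ r, t = r + 1 := ⟨t - 1, by omega⟩
  have ht' : m = (2 * r + 1) + 1 + 1 := by omega
  subst ht'
  have hcard : Nat.card G = gs (2 * r + 1 + 1 + 1) n := by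
    rw [Nat.card_eq_fintype_card]
    exact eq_of_mul hn hG (gs_mul (by omega) _)
  set l := gs (2 * r + 1) n with hl
  set N := n ^ (2 * r + 1) with hN
  have hND : IsDiffSet D (N + l) l := by
    constructor
    · have : D.card = gs (2 * r + 1 + 1) n := eq_of_mul hn hD1 (gs_mul (by omega) _)
      rw [this, gs_succ]
      ring
    · intro g hg
      exact eq_of_mul hn (hD2 g hg) (gs_mul (by omega) _)
  have : Fact p.Prime := ⟨hp⟩
  have hN0 : 0 < N := by positivity
  have hNv : Odd (padicValNat p N) := by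
    rw [hN, padicValNat.pow]
    exact Odd.mul ⟨r, by ring⟩ hpn
  have hpdvd : p ∣ n := by
    by_contra hne
    rw [padicValNat.eq_zero_of_not_dvd hne] at hpn
    exact absurd hpn (by decide)
  have hn0 : ((n : ℕ) : ZMod p) = 0 := (ZMod.natCast_eq_zero_iff _ _).2 hpdvd
  have hgs1 : ∀ j, ((gs (j + 1) n : ℕ) : ZMod p) = 1 := by
    intro j
    rw [gs_succ']
    push_cast
    rw [hn0]
    ring
  have hl1 : ((l : ℕ) : ZMod p) = 1 := hgs1 (2 * r)
  have hvodd : gs (2 * r + 1 + 1 + 1) n % 2 = 1 := by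
    have := gs_odd (r + 1) n
    rwa [show 2 * (r + 1) + 1 = 2 * r + 1 + 1 + 1 by ring] at this
  have hs2 : s ≠ 2 := by
    rintro rfl
    omega
  have hps : p ≠ s := by
    rintro rfl
    have h1 := (ZMod.natCast_eq_zero_iff (gs (2 * r + 1 + 1 + 1) n) p).2 hsv
    rw [hgs1] at h1
    exact one_ne_zero h1
  -- the trivial subgroup
  have h1 : IsSquare ((-1 : ZMod p) ^ ((gs (2 * r + 1 + 1 + 1) n - 1) / 2)) := by
    have hi : Nat.card (G ⧸ (⊥ : Subgroup G)) = gs (2 * r + 1 + 1 + 1) n := by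
      rw [← hcard]
      exact Subgroup.index_bot
    have h3 := diff_loc hN0 hND (⊥ : Subgroup G) (by rw [hi]; exact Nat.odd_iff.2 hvodd) hp hNv
    rw [hi] at h3
    have e : (((-1) ^ ((gs (2 * r + 1 + 1 + 1) n - 1) / 2) * (l * Nat.card (⊥ : Subgroup G) : ℕ)
        : ℤ) : ZMod p) = (-1 : ZMod p) ^ ((gs (2 * r + 1 + 1 + 1) n - 1) / 2) := by
      have hb : Nat.card (⊥ : Subgroup G) = 1 := Subgroup.card_bot
      rw [hb, mul_one]
      push_cast
      rw [hl1, mul_one]
    rwa [e] at h3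
  -- a subgroup of order `s`
  have : Fact s.Prime := ⟨hs⟩
  obtain ⟨g, hg⟩ := exists_prime_orderOf_dvd_card' (G := G) s (by rw [hcard]; exact hsv)
  set H : Subgroup G := Subgroup.zpowers g with hH
  have hHc : Nat.card H = s := by rw [hH, Nat.card_zpowers, hg]
  have hidx : s * Nat.card (G ⧸ H) = gs (2 * r + 1 + 1 + 1) n := by
    rw [← hcard, ← hHc]
    exact Subgroup.card_mul_index H
  have hwodd : Odd (Nat.card (G ⧸ H)) := by
    rw [Nat.odd_iff]
    rcases Nat.mod_two_eq_zero_or_one (Nat.card (G ⧸ H)) with h0 | h0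
    · exfalso
      have : s * Nat.card (G ⧸ H) % 2 = 0 := by rw [Nat.mul_mod, h0]; simp
      omega
    · exact h0
  have h2 : IsSquare ((-1 : ZMod p) ^ ((Nat.card (G ⧸ H) - 1) / 2) * (s : ZMod p)) := by
    have h3 := diff_loc hN0 hND H hwodd hp hNv
    have e : (((-1) ^ ((Nat.card (G ⧸ H) - 1) / 2) * (l * Nat.card H : ℕ) : ℤ) : ZMod p)
        = (-1 : ZMod p) ^ ((Nat.card (G ⧸ H) - 1) / 2) * (s : ZMod p) := by
      rw [hHc]
      push_cast
      rw [hl1, one_mul]
    rwa [e] at h3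
  exact recip hp hs hp2 hs2 hps hidx hvodd h1 h2

end H862R2.DS
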